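import Pool.Agent.Helper61.QE.St2

/-!
# Project QD (MP_d112a4_gt), PART E, module SNE: the concentration set
-/

set_option autoImplicit false

open MeasureTheory Set Filter Topology Complex
open scoped ContDiff ComplexConjugate ENNReal

namespace Pool.Agent.Helper64.QE

open Pool.Agent.Helper61.QE

theorem pSNE : Pool.Agent.Helper61.QE.StSNE := by
  intro U G hG
  have hsub : ∀ n, (G n) '' D ⊆ Metric.closedBall 0 1 := by
    rintro n _ ⟨z, hz, rfl⟩
    rw [mem_closedBall_zero_iff]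
    exact (hG n).le z (le_of_lt (mem_ball_zero_iff.1 hz))
  have hopen : ∀ n, IsOpen ((G n) '' D) := fun n => (G n).isOpenMap _ Metric.isOpen_ball
  have hne : ∀ n, ((G n) '' D).Nonempty := fun n =>
    ⟨G n 0, 0, Metric.mem_ball_self one_pos, rfl⟩
  have hpos : ∀ n, volume ((G n) '' D) ≠ 0 := fun n =>
    ((hopen n).measure_pos volume (hne n)).ne'
  have hfin : ∀ n, volume ((G n) '' D) ≠ ⊤ := fun n =>
    ((measure_mono (hsub n)).trans_lt measure_closedBall_lt_top).ne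
  refine ⟨?_, ?_, ?_⟩
  · -- nonempty
    by_contra hemp
    rw [Set.not_nonempty_iff_eq_empty] at hemp
    have h1 : ∀ x : ℂ, ∃ ε : ℝ, 0 < ε ∧ ∀ c : ℝ≥0∞, 0 < c → c ≠ ⊤ →
        ∀ᶠ n in (U : Filter ℕ), volume (G n '' D ∩ Metric.ball x ε) < c * volume (G n '' D) := by
      intro x
      have hx : x ∉ Sset U G := by
        rw [hemp]
        exact Set.notMem_empty _
      by_contra hno
      apply hx
      intro ε hε
      by_contra hno2
      apply hno
      refine ⟨ε, hε, ?_⟩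
      intro c hc0 hct
      have h2 : ¬ ∀ᶠ n in (U : Filter ℕ),
          c * volume (G n '' D) ≤ volume (G n '' D ∩ Metric.ball x ε) :=
        fun h => hno2 ⟨c, hc0, hct, h⟩
      have h3 := Ultrafilter.eventually_not.2 h2
      filter_upwards [h3] with n hn
      exact not_le.1 hn
    choose ε hε hεc using h1
    obtain ⟨t, -, ht⟩ := (isCompact_closedBall (0 : ℂ) 1).elim_nhds_subcover
      (fun x => Metric.ball x (ε x)) (fun x _ => Metric.ball_mem_nhds x (hε x))
    have hc0 : (0 : ℝ≥0∞) < ((t.card : ℝ≥0∞) + 1)⁻¹ :=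
      ENNReal.inv_pos.2 (ENNReal.add_ne_top.2 ⟨ENNReal.natCast_ne_top _, ENNReal.one_ne_top⟩)
    have hk0 : ((t.card : ℝ≥0∞) + 1) ≠ 0 := by
      intro h
      rw [add_eq_zero] at h
      exact one_ne_zero h.2
    have hkt : ((t.card : ℝ≥0∞) + 1) ≠ ⊤ :=
      ENNReal.add_ne_top.2 ⟨ENNReal.natCast_ne_top _, ENNReal.one_ne_top⟩
    have hct : ((t.card : ℝ≥0∞) + 1)⁻¹ ≠ ⊤ := ENNReal.inv_ne_top.2 hk0
    have hall : ∀ᶠ n in (U : Filter ℕ), ∀ x ∈ t,
        volume (G n '' D ∩ Metric.ball x (ε x)) <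
          ((t.card : ℝ≥0∞) + 1)⁻¹ * volume (G n '' D) :=
      (Filter.eventually_all_finset t).2 fun x _ => hεc x _ hc0 hct
    obtain ⟨n, hn⟩ := hall.exists
    have hcov : (G n) '' D ⊆ ⋃ x ∈ t, (G n '' D ∩ Metric.ball x (ε x)) := by
      intro z hz
      have h2 := ht (hsub n hz)
      rw [Set.mem_iUnion₂] at h2 ⊢
      obtain ⟨x, hx, hzx⟩ := h2
      exact ⟨x, hx, hz, hzx⟩
    have h3 : volume (G n '' D) ≤
        (t.card : ℝ≥0∞) * (((t.card : ℝ≥0∞) + 1)⁻¹ * volume (G n '' D)) := by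
      calc volume (G n '' D) ≤ volume (⋃ x ∈ t, (G n '' D ∩ Metric.ball x (ε x))) :=
            measure_mono hcov
        _ ≤ ∑ x ∈ t, volume (G n '' D ∩ Metric.ball x (ε x)) := measure_biUnion_finset_le _ _
        _ ≤ ∑ _x ∈ t, ((t.card : ℝ≥0∞) + 1)⁻¹ * volume (G n '' D) :=
            Finset.sum_le_sum fun x hx => (hn x hx).le
        _ = _ := by rw [Finset.sum_const, nsmul_eq_mul]
    have h4 : (t.card : ℝ≥0∞) * (((t.card : ℝ≥0∞) + 1)⁻¹ * volume (G n '' D)) +
        ((t.card : ℝ≥0∞) + 1)⁻¹ * volume (G n '' D) = volume (G n '' D) := by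
      have h5 : (t.card : ℝ≥0∞) * (((t.card : ℝ≥0∞) + 1)⁻¹ * volume (G n '' D)) +
          ((t.card : ℝ≥0∞) + 1)⁻¹ * volume (G n '' D) =
          (((t.card : ℝ≥0∞) + 1) * ((t.card : ℝ≥0∞) + 1)⁻¹) * volume (G n '' D) := by ring
      rw [h5, ENNReal.mul_inv_cancel hk0 hkt, one_mul]
    have h6 : (t.card : ℝ≥0∞) * (((t.card : ℝ≥0∞) + 1)⁻¹ * volume (G n '' D)) ≠ ⊤ :=
      ENNReal.mul_ne_top (ENNReal.natCast_ne_top _) (ENNReal.mul_ne_top hct (hfin n))
    have h7 : ((t.card : ℝ≥0∞) + 1)⁻¹ * volume (G n '' D) ≠ 0 :=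
      mul_ne_zero hc0.ne' (hpos n)
    have h8 := ENNReal.lt_add_right h6 h7
    rw [h4] at h8
    exact absurd h3 (not_le.2 h8)
  · -- closed
    apply isClosed_of_closure_subset
    intro x hx ε hε
    obtain ⟨y, hy, hxy⟩ := Metric.mem_closure_iff.1 hx (ε / 2) (by linarith)
    obtain ⟨c, hc0, hct, hev⟩ := hy (ε / 2) (by linarith)
    refine ⟨c, hc0, hct, ?_⟩
    filter_upwards [hev] with n hn
    refine hn.trans (measure_mono ?_)
    apply Set.inter_subset_inter_right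
    apply Metric.ball_subset_ball'
    rw [dist_comm]
    linarith
  · -- bounded
    intro x hx
    by_contra hno
    rw [mem_closedBall_zero_iff, not_le] at hno
    obtain ⟨c, hc0, -, hev⟩ := hx (‖x‖ - 1) (by linarith)
    obtain ⟨n, hn⟩ := hev.exists
    have h1 : G n '' D ∩ Metric.ball x (‖x‖ - 1) = ∅ := by
      rw [Set.eq_empty_iff_forall_notMem]
      rintro z ⟨hz1, hz2⟩
      have h2 := mem_closedBall_zero_iff.1 (hsub n hz1)
      rw [mem_ball_iff_norm] at hz2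
      have h3 : ‖x‖ ≤ ‖z‖ + ‖z - x‖ := by
        have := norm_sub_le z (z - x)
        rwa [sub_sub_cancel] at this
      linarith
    rw [h1, measure_empty] at hn
    have h2 := le_antisymm hn (zero_le)
    exact (mul_ne_zero hc0.ne' (hpos n)) h2

end Pool.Agent.Helper64.QE
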