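import Pool.Agent.Helper61.QE.St3

/-!
# Project QD (MP_d112a4_gt), PART E, module TR3: points of the concentration set on vertical lines
-/

set_option autoImplicit false

open MeasureTheory Set Filter Topology Complex
open scoped ContDiff ComplexConjugate ENNReal

namespace Pool.Agent.Helper64.QE

open Pool.Agent.Helper61.QE

private theorem isOpen_img (P : ℂ → ℂ) (hP : DifferentiableOn ℂ P D) (hi : InjOn P D) :
    IsOpen (P '' D) := by
  have h1 : AnalyticOnNhd ℂ P D := hP.analyticOnNhd Metric.isOpen_ball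
  have h2 : IsPreconnected D := (convex_ball (0 : ℂ) 1).isPreconnected
  rcases h1.is_constant_or_isOpen h2 with ⟨w, hw⟩ | h
  · exfalso
    have h3 : (0 : ℂ) ∈ D := Metric.mem_ball_self one_pos
    have h4 : (1 / 2 : ℂ) ∈ D := by
      rw [mem_ball_zero_iff]
      norm_num
    have h5 := hi h3 h4 ((hw 0 h3).trans (hw _ h4).symm)
    norm_num at h5
  · exact h D Subset.rfl Metric.isOpen_ball

theorem pTR3 (hHUR : Pool.Agent.Helper61.QE.StHUR) (hSNE : Pool.Agent.Helper61.QE.StSNE)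
    (hSNX : Pool.Agent.Helper61.QE.StSNX) (hOUT : Pool.Agent.Helper61.QE.StOUT)
    (hBDS : Pool.Agent.Helper61.QE.StBDS) : Pool.Agent.Helper61.QE.StTR3 := by
  intro Γ _ s F h t0 G N R R' U P ν Ri Ri' hFu hFD ht0 hSq hLm τ hτ
  have hgd := hSq.gd
  have hP := hLm.phol
  have hi := hLm.pinj
  have h0 := hLm.pzero
  have hcon := hLm.pcon
  obtain ⟨⟨x0, hx0⟩, -, -⟩ := hSNE U G hgd
  have hx0P : ∀ u ∈ D, x0 * P u ≠ 1 := fun u hu => hSNX U G P hgd hP hi h0 hcon x0 hx0 u hu
  -- the set `L`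
  obtain ⟨L, hL⟩ : ∃ L : Set ℂ, L = {x : ℂ | ∀ u ∈ D, x * P u ≠ 1} := ⟨_, rfl⟩
  have hmemL : ∀ x, x ∈ L ↔ ∀ u ∈ D, x * P u ≠ 1 := fun x => by rw [hL]; rfl
  have hLb : L ⊆ Metric.closedBall 0 1 := by
    intro x hx
    by_contra hno
    rw [mem_closedBall_zero_iff, not_le] at hno
    have hx0' : x ≠ 0 := by
      rintro rfl
      rw [norm_zero] at hno
      linarith
    have h1 : ‖x⁻¹‖ < 1 := by
      rw [norm_inv]
      exact inv_lt_one_of_one_lt₀ hno
    obtain ⟨u, hu, hPu⟩ := hOUT U G P hgd hP h0 hcon x⁻¹ h1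
    exact (hmemL x).1 hx u hu (by rw [hPu, mul_inv_cancel₀ hx0'])
  have hLc : IsClosed L := by
    have h1 : IsOpen {x : ℂ | x ≠ 0} := isOpen_ne
    have h2 : ContinuousOn (fun x : ℂ => x⁻¹) {x : ℂ | x ≠ 0} := continuousOn_inv₀
    have h3 := h2.isOpen_inter_preimage h1 (isOpen_img P hP hi)
    have h4 : Lᶜ = {x : ℂ | x ≠ 0} ∩ (fun x : ℂ => x⁻¹) ⁻¹' (P '' D) := by
      ext x
      constructor
      · intro hx
        have hx' : ¬ ∀ u ∈ D, x * P u ≠ 1 := fun h => hx ((hmemL x).2 h)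
        push Not at hx'
        obtain ⟨u, hu, hxu⟩ := hx'
        have hne : x ≠ 0 := by
          rintro rfl
          rw [zero_mul] at hxu
          exact zero_ne_one hxu
        exact ⟨hne, u, hu, eq_inv_of_mul_eq_one_right hxu⟩
      · rintro ⟨hne, u, hu, hxu⟩ hx
        have hne' : x ≠ 0 := hne
        have hxu' : P u = x⁻¹ := hxu
        exact (hmemL x).1 hx u hu (by rw [hxu', mul_inv_cancel₀ hne'])
    rw [← isOpen_compl_iff, h4]
    exact h3
  -- `L` meets the line
  have hy : ∀ n, ∃ y : ℂ, y ∈ G n '' Metric.closedBall 0 1 ∧ y.re = τ := by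
    intro n
    have h1 : IsPreconnected (G n '' Metric.closedBall (0 : ℂ) 1) :=
      (convex_closedBall (0 : ℂ) 1).isPreconnected.image _ (G n).continuous.continuousOn
    have h2 : (0 : ℂ) ∈ G n '' Metric.closedBall 0 1 :=
      ⟨0, Metric.mem_closedBall_self zero_le_one, (hgd n).zero⟩
    have h3 : (1 : ℂ) ∈ G n '' Metric.closedBall 0 1 := by
      obtain ⟨q, hq, hq1⟩ := (hgd n).one
      exact ⟨q, mem_closedBall_zero_iff.2 hq, hq1⟩
    have h4 := h1.intermediate_value h2 h3 (f := Complex.re) Complex.continuous_re.continuousOn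
    have h5 : τ ∈ Icc (Complex.re 0) (Complex.re 1) := by
      rw [Complex.zero_re, Complex.one_re]
      exact hτ
    obtain ⟨y, hy1, hy2⟩ := h4 h5
    exact ⟨y, hy1, hy2⟩
  choose y hyG hyre using hy
  have hyb : ∀ n, y n ∈ Metric.closedBall (0 : ℂ) 1 := by
    intro n
    obtain ⟨z, hz, hzy⟩ := hyG n
    rw [← hzy, mem_closedBall_zero_iff]
    exact (hgd n).le z (mem_closedBall_zero_iff.1 hz)
  obtain ⟨yl, -, hyl⟩ := (isCompact_closedBall (0 : ℂ) 1).ultrafilter_le_nhds (U.map y)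
    (by
      rw [le_principal_iff]
      change y ⁻¹' (Metric.closedBall (0 : ℂ) 1) ∈ (U : Filter ℕ)
      exact Filter.univ_mem' hyb)
  have hyt : Tendsto y (U : Filter ℕ) (𝓝 yl) := hyl
  have hylre : yl.re = τ := by
    have h1 : Tendsto (fun n => (y n).re) (U : Filter ℕ) (𝓝 yl.re) :=
      (Complex.continuous_re.tendsto yl).comp hyt
    have h2 : Tendsto (fun n => (y n).re) (U : Filter ℕ) (𝓝 τ) := by
      simp only [hyre]
      exact tendsto_const_nhds
    exact tendsto_nhds_unique h1 h2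
  have hylL : yl ∈ L := by
    rw [hmemL]
    intro u hu hyu
    obtain ⟨ε, hε, hev⟩ := hHUR U G P hgd hP hi h0 hcon yl u hu hyu
    have h1 : ∀ᶠ n in (U : Filter ℕ), y n ∈ Metric.ball yl ε :=
      hyt (Metric.ball_mem_nhds yl hε)
    obtain ⟨n, hn1, hn2⟩ := (hev.and h1).exists
    obtain ⟨v, hv, hv0, hyv⟩ := hn1 _ hn2
    obtain ⟨z, hz, hzy⟩ := hyG n
    have h2 : z = v⁻¹ := (G n).injective (hzy.trans hyv)
    rw [mem_closedBall_zero_iff, h2, norm_inv] at hz
    have h3 : ‖v‖ < 1 := mem_ball_zero_iff.1 hv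
    have h4 : 1 < ‖v‖⁻¹ := (one_lt_inv₀ (norm_pos_iff.2 hv0)).2 h3
    linarith
  -- the highest point
  have hK : IsCompact (L ∩ {x : ℂ | x.re = τ}) := by
    apply (isCompact_closedBall (0 : ℂ) 1).of_isClosed_subset
    · exact hLc.inter (isClosed_eq Complex.continuous_re continuous_const)
    · exact Set.inter_subset_left.trans hLb
  obtain ⟨x, hxK, hmax⟩ := hK.exists_isMaxOn ⟨yl, hylL, hylre⟩ Complex.continuous_im.continuousOn
  have hxL := (hmemL x).1 hxK.1
  have hxre : x.re = τ := hxK.2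
  rcases eq_or_ne x x0 with hxx | hxx
  · exact ⟨x, hxx ▸ hx0, hxre⟩
  have hsub : x - x0 ≠ 0 := sub_ne_zero.2 hxx
  have hfr : (x - x0)⁻¹ ∈ frontier ((fun u => P u / (1 - x0 * P u)) '' D) := by
    constructor
    · have h1 : Tendsto (fun t : ℝ => (x + (t : ℂ) * Complex.I - x0)⁻¹) (𝓝[>] (0 : ℝ))
          (𝓝 (x - x0)⁻¹) := by
        have h2 : Tendsto (fun t : ℝ => x + (t : ℂ) * Complex.I - x0) (𝓝 (0 : ℝ))
            (𝓝 (x + ((0 : ℝ) : ℂ) * Complex.I - x0)) := by
          apply Continuous.tendsto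
          fun_prop
        have h3 : x + ((0 : ℝ) : ℂ) * Complex.I - x0 = x - x0 := by
          rw [Complex.ofReal_zero, zero_mul, add_zero]
        rw [h3] at h2
        exact (h2.inv₀ hsub).mono_left nhdsWithin_le_nhds
      apply mem_closure_of_tendsto h1
      filter_upwards [self_mem_nhdsWithin] with t ht
      have ht0 : 0 < t := ht
      have h2 : ¬ (x + (t : ℂ) * Complex.I) ∈ L := by
        intro hmem
        have h3 : (x + (t : ℂ) * Complex.I).re = τ := by
          simp [hxre]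
        have h4 := hmax ⟨hmem, h3⟩
        have h5 : (x + (t : ℂ) * Complex.I).im ≤ x.im := h4
        have h6 : (x + (t : ℂ) * Complex.I).im = x.im + t := by simp
        linarith
      have h3 : ¬ ∀ u ∈ D, (x + (t : ℂ) * Complex.I) * P u ≠ 1 := fun h => h2 ((hmemL _).2 h)
      push Not at h3
      obtain ⟨u, hu, hxu⟩ := h3
      refine ⟨u, hu, ?_⟩
      have hPu : P u ≠ 0 := by
        intro h
        rw [h, mul_zero] at hxu
        exact zero_ne_one hxu
      have h4 : 1 - x0 * P u = (x + (t : ℂ) * Complex.I - x0) * P u := by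
        rw [sub_mul, hxu]
      change P u / (1 - x0 * P u) = _
      rw [h4, div_mul_cancel_right₀ hPu]
    · intro hint
      obtain ⟨u, hu, hgu⟩ := interior_subset hint
      have h1 : 1 - x0 * P u ≠ 0 := sub_ne_zero.2 (hx0P u hu).symm
      have h2 : P u / (1 - x0 * P u) = (x - x0)⁻¹ := hgu
      rw [div_eq_iff h1, eq_inv_mul_iff_mul_eq₀ hsub] at h2
      exact hxL u hu (by linear_combination h2)
  have hb := (hBDS Γ s F h t0 G N R R' U P ν Ri Ri' hFu hFD ht0 hSq hLm x0 hx0 _ hfr).2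
  rw [inv_inv, add_sub_cancel] at hb
  exact ⟨x, hb, hxre⟩

end Pool.Agent.Helper64.QE
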